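import Pool.Agent.helper62.RS.SpecE
import Pool.Agent.helper62.QU.All

/-!
# Row rs:ESC (MP_07c750_an): scars
-/

set_option autoImplicit false

open scoped MatrixGroups ContDiff Topology UpperHalfPlane ComplexConjugate
open UpperHalfPlane MeasureTheory Filter Set

namespace Pool.Agent.RS

/-- the tube is the thickening of the union of the lifts -/
theorem ESC_tube (Γ : Subgroup SL(2, ℝ)) (g₀ : SL(2, ℝ)) (c : ℝ → ℍ)
    (hc : ∀ t, c t = (g₀ * aM t) • I) (w : ℝ) :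
    Tube Γ c w = Metric.thickening w (geo Γ g₀) := by
  ext z
  rw [Metric.mem_thickening_iff]
  constructor
  · rintro ⟨γ, t, h⟩
    refine ⟨γ⁻¹ • c t, ⟨γ⁻¹, t, by rw [hc t]⟩, ?_⟩
    have h1 : dist z (γ⁻¹ • c t) = dist (γ • z) (c t) := by
      have h2 := dist_smul (γ : SL(2, ℝ)) z (γ⁻¹ • c t)
      have h3 : (γ : SL(2, ℝ)) • (γ⁻¹ • c t) = c t := smul_inv_smul γ (c t)
      rw [h3] at h2
      exact h2.symm
    rw [h1]
    exact h
  · rintro ⟨y, ⟨γ, t, hy⟩, h⟩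
    refine ⟨γ⁻¹, t, ?_⟩
    have h2 := dist_smul (γ : SL(2, ℝ)) (γ⁻¹ • z) (c t)
    have h3 : (γ : SL(2, ℝ)) • (γ⁻¹ • z) = z := smul_inv_smul γ z
    rw [h3] at h2
    have h4 : y = (γ : SL(2, ℝ)) • c t := by
      rw [hy, hc t]
      rfl
    rw [← h2, ← h4]
    exact h

/-- the one test function -/
theorem ESC_one (F : Set ℍ) (S : Set ℍ) (u : ℍ → ℝ) (φ : ℍ → ℂ) (σ : ℝ) (K : Set ℍ)
    (hFm : MeasurableSet F) (hK : IsCompact K) (hFK : F ⊆ K) (hSm : MeasurableSet S)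
    (hu : Continuous u) (hu0 : ∀ z, 0 ≤ u z) (hu1 : ∀ z ∈ S, u z = 1) (hφ : Continuous φ)
    (h1 : ∫ z in F, φ z * conj (φ z) = 1) (hσ : σ ≤ ∫ z in F ∩ S, ‖φ z‖ ^ 2) :
    σ - 1 ≤ ∫ z in F, (u z - 1) * ‖φ z‖ ^ 2 := by
  have hii : ∀ f : ℍ → ℝ, Continuous f → IntegrableOn f F := fun f hf =>
    (hf.continuousOn.integrableOn_compact hK).mono_set hFK
  have hn : Continuous fun z => ‖φ z‖ ^ 2 := hφ.norm.pow 2
  have h2 : ∫ z in F, ‖φ z‖ ^ 2 = 1 := by
    have e1 : (fun z => φ z * conj (φ z)) = fun z => ((‖φ z‖ ^ 2 : ℝ) : ℂ) := by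
      funext z
      rw [Complex.mul_conj']
      push_cast
      rfl
    have e2 : ∫ z in F, ((‖φ z‖ ^ 2 : ℝ) : ℂ) = ((∫ z in F, ‖φ z‖ ^ 2 : ℝ) : ℂ) := integral_ofReal
    rw [e1, e2] at h1
    exact_mod_cast h1
  have h3 : ∫ z in F, (u z - 1) * ‖φ z‖ ^ 2 =
      (∫ z in F, u z * ‖φ z‖ ^ 2) - ∫ z in F, ‖φ z‖ ^ 2 := by
    have i1 : IntegrableOn (fun z => u z * ‖φ z‖ ^ 2) F := hii _ (hu.mul hn)
    have i2 : IntegrableOn (fun z => ‖φ z‖ ^ 2) F := hii _ hn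
    have e1 : (fun z => (u z - 1) * ‖φ z‖ ^ 2) = fun z => u z * ‖φ z‖ ^ 2 - ‖φ z‖ ^ 2 := by
      funext z
      ring
    rw [e1]
    exact integral_sub i1 i2
  have h4 : ∫ z in F ∩ S, ‖φ z‖ ^ 2 ≤ ∫ z in F, u z * ‖φ z‖ ^ 2 := by
    have e1 : ∫ z in F ∩ S, ‖φ z‖ ^ 2 = ∫ z in F ∩ S, u z * ‖φ z‖ ^ 2 := by
      refine setIntegral_congr_fun (hFm.inter hSm) fun z hz => ?_
      simp only [hu1 z hz.2, one_mul]
    rw [e1]
    have i1 : IntegrableOn (fun z => u z * ‖φ z‖ ^ 2) F := hii _ (hu.mul hn)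
    exact setIntegral_mono_set i1
      (Eventually.of_forall fun z => mul_nonneg (hu0 z) (sq_nonneg _))
      (LE.le.eventuallyLE inter_subset_left)
  rw [h3, h2]
  linarith

theorem ESC (hGLC : GLC_stmt) (hGMG : GMG_stmt) (hGFD : GFD_stmt) (hGBD : GBD_stmt) (hEGE : EGE_stmt) (hVOL : VOL_stmt) (hEP2 : EP2_stmt) : ESC_stmt := by
  intro Γ F c hΓ hF hc ε hε
  obtain ⟨g₀, hg₀⟩ := hEGE c hc.1
  have hCG : CG Γ g₀ := by
    obtain ⟨-, γ, l, hl, h⟩ := hc
    exact ⟨γ, l, hl, fun t => by rw [← hg₀, ← hg₀]; exact h t⟩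
  obtain ⟨⟨-, -, hfin, -⟩, hE⟩ := hGFD Γ F hΓ hF
  obtain ⟨w, u, hw, hu, hu01, hu1, C, hC, hCT⟩ := hVOL Γ F g₀ hΓ hF hCG hfin
    (fun f x hf => (hE ℝ).1 f x hf.2) (ε / 8) (by positivity)
  obtain ⟨K, hK, hFK⟩ := hF.rel
  have haM : Continuous aM := hGLC.2.2.2.1
  have hh : QU.Inv Γ (fun z => u z - 1) :=
    ⟨hu.1.sub continuous_const, fun γ z => by simp only [hu.2 γ z]⟩
  have hp : ∃ T₀ : ℝ, ∀ T, T₀ ≤ T →
      iR F (fun g => Real.exp (∫ t in (0 : ℝ)..T, (fun z => u z - 1) ((g * aM t) • I))) ≤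
        Real.exp ((-1 + ε / 4) * T) := by
    refine ⟨max 0 (Real.log C / (ε / 8)), fun T hT => ?_⟩
    have hT0 : 0 ≤ T := (le_max_left _ _).trans hT
    have hT1 : Real.log C / (ε / 8) ≤ T := (le_max_right _ _).trans hT
    have hT2 : Real.log C ≤ T * (ε / 8) := (div_le_iff₀ (by positivity)).1 hT1
    have hCe : C ≤ Real.exp (T * (ε / 8)) := by
      rw [← Real.exp_log hC]
      exact Real.exp_le_exp.2 hT2
    have e1 : (fun g : SL(2, ℝ) => Real.exp (∫ t in (0 : ℝ)..T, (fun z => u z - 1) ((g * aM t) • I))) =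
        fun g => Real.exp (-T) * Real.exp (∫ t in (0 : ℝ)..T, u ((g * aM t) • I)) := by
      funext g
      have hcg : Continuous fun t : ℝ => u ((g * aM t) • I) :=
        hu.1.comp ((continuous_const.mul haM).smul continuous_const)
      have e2 : ∫ t in (0 : ℝ)..T, (fun z => u z - 1) ((g * aM t) • I) =
          (∫ t in (0 : ℝ)..T, u ((g * aM t) • I)) - T := by
        simp only
        rw [intervalIntegral.integral_sub (hcg.intervalIntegrable _ _)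
          (continuous_const.intervalIntegrable _ _)]
        simp
      rw [e2, ← Real.exp_add]
      congr 1
      ring
    have e3 : iR F (fun g : SL(2, ℝ) =>
        Real.exp (-T) * Real.exp (∫ t in (0 : ℝ)..T, u ((g * aM t) • I))) =
        Real.exp (-T) * iR F (fun g => Real.exp (∫ t in (0 : ℝ)..T, u ((g * aM t) • I))) := by
      unfold iR
      rw [integral_const_mul]
    rw [e1, e3]
    have e4 : Real.exp ((-1 + ε / 4) * T) =
        Real.exp (-T) * (Real.exp (T * (ε / 8)) * Real.exp (ε / 8 * T)) := by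
      rw [← Real.exp_add, ← Real.exp_add]
      congr 1
      ring
    rw [e4]
    refine mul_le_mul_of_nonneg_left ?_ (Real.exp_pos _).le
    exact (hCT T hT0).trans (mul_le_mul_of_nonneg_right hCe (Real.exp_pos _).le)
  obtain ⟨r₀, hr₀, hmain⟩ := hEP2 Γ F (fun z => u z - 1) (-1 + ε / 4) hΓ hF hh hp (ε / 8) (by positivity)
  refine ⟨w, r₀, hw, hr₀, fun σ r N s φ hr hEF hσ => ?_⟩
  have hr1 : 1 < r := hr₀.trans_le hr
  have hr0 : 0 < r := by linarith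
  rcases Nat.eq_zero_or_pos N with hN | hN
  · subst hN
    simpa using (Real.rpow_nonneg hr0.le _)
  have h1 := hmain r N s φ hr hN hEF
  have hNp : (0 : ℝ) < N := by exact_mod_cast hN
  have htube := ESC_tube Γ g₀ c hg₀ w
  have hone : ∀ j, σ - 1 ≤ ∫ z in F, (u z - 1) * ‖φ j z‖ ^ 2 := by
    intro j
    refine ESC_one F (Tube Γ c w) u (φ j) σ K hF.meas hK hFK ?_ hu.1 (fun z => (hu01 z).1) ?_ ?_ ?_ (hσ j)
    · rw [htube]
      exact Metric.isOpen_thickening.measurableSet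
    · intro z hz
      rw [htube] at hz
      exact hu1 z hz
    · have h2 : QU.CD ∞ (φ j) := (hEF.2.1 j).1
      exact (QU.CA1_cont (φ j)).1 (ContDiffOn.of_le h2 (by simp))
    · have := hEF.2.2 j j
      simpa using this
  have hsum : (σ - 1) * N ≤ ∑ j, ∫ z in F, (u z - 1) * ‖φ j z‖ ^ 2 := by
    calc (σ - 1) * N = ∑ j : Fin N, (σ - 1) := by
          rw [Finset.sum_const, Finset.card_univ, Fintype.card_fin, nsmul_eq_mul]
          ring
      _ ≤ _ := Finset.sum_le_sum fun j _ => hone j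
  have havg : σ - 1 ≤ (∑ j, ∫ z in F, (u z - 1) * ‖φ j z‖ ^ 2) / N := by
    rw [le_div_iff₀ hNp]
    exact hsum
  have h3 : σ - 1 ≤ -1 + ε / 4 + 1 / 2 * (1 - Real.log N / Real.log r) + ε / 8 := havg.trans h1
  have hlr : 0 < Real.log r := Real.log_pos hr1
  have h4 : Real.log N / Real.log r ≤ 1 - 2 * σ + ε := by linarith
  have h5 : Real.log N ≤ (1 - 2 * σ + ε) * Real.log r := (div_le_iff₀ hlr).1 h4
  rw [Real.rpow_def_of_pos hr0, ← Real.exp_log hNp]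
  refine Real.exp_le_exp.2 ?_
  rw [mul_comm (Real.log r)]
  exact h5

end Pool.Agent.RS
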