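import Pool.Agent.helper29.RS.SpecK2
import Pool.Agent.helper62.QU.CA1

/-!
# Row rs:GBK (MP_07c750_an): the Gram form in the coordinate `t = cot θ`
-/

set_option autoImplicit false

open scoped MatrixGroups ContDiff Topology UpperHalfPlane ComplexConjugate
open UpperHalfPlane MeasureTheory Filter Set

namespace Pool.Agent.RS

theorem GBK_q (p q c d : ℝ) (z : ℂ) (h : p * d - q * c = 1) :
    (((p : ℂ) * z + (q : ℂ)) / ((c : ℂ) * z + (d : ℂ))).im =
      z.im / ((c * z.re + d) ^ 2 + (c * z.im) ^ 2) := by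
  rw [Complex.div_im]
  have e1 : ((p : ℂ) * z + (q : ℂ)).im = p * z.im := by simp
  have e2 : ((p : ℂ) * z + (q : ℂ)).re = p * z.re + q := by simp
  have e3 : ((c : ℂ) * z + (d : ℂ)).im = c * z.im := by simp
  have e4 : ((c : ℂ) * z + (d : ℂ)).re = c * z.re + d := by simp
  have e5 : Complex.normSq ((c : ℂ) * z + (d : ℂ)) = (c * z.re + d) ^ 2 + (c * z.im) ^ 2 := by
    rw [Complex.normSq_apply, e3, e4]
    ring
  rw [e5, e1, e2, e3, e4, ← sub_div]
  congr 1
  have e6 : p * z.im * (c * z.re + d) - (p * z.re + q) * (c * z.im) = (p * d - q * c) * z.im := by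
    ring
  rw [e6, h, one_mul]

/-- the height of the rotated point -/
theorem GBK_im (θ : ℝ) (z : ℍ) : (kM θ • z : ℍ).im =
    z.im / ((Real.cos θ - Real.sin θ * z.re) ^ 2 + (Real.sin θ * z.im) ^ 2) := by
  have h1 := coe_specialLinearGroup_apply (kM θ) z
  have h2 : (kM θ • z : ℍ).im = (((kM θ • z : ℍ) : ℂ)).im := rfl
  have h3 := GBK_q (Real.cos θ) (Real.sin θ) (-Real.sin θ) (Real.cos θ) (z : ℂ)
    (by nlinarith [Real.sin_sq_add_cos_sq θ])
  have h4 : ((kM θ • z : ℍ) : ℂ) = (((Real.cos θ : ℝ) : ℂ) * (z : ℂ) + ((Real.sin θ : ℝ) : ℂ)) /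
      (((-Real.sin θ : ℝ) : ℂ) * (z : ℂ) + ((Real.cos θ : ℝ) : ℂ)) := h1
  rw [h2, h4, h3]
  have h5 : (-Real.sin θ * (z : ℂ).re + Real.cos θ) ^ 2 + (-Real.sin θ * (z : ℂ).im) ^ 2 =
      (Real.cos θ - Real.sin θ * z.re) ^ 2 + (Real.sin θ * z.im) ^ 2 := by
    have e1 : (z : ℂ).re = z.re := rfl
    have e2 : (z : ℂ).im = z.im := rfl
    rw [e1, e2]
    ring
  rw [h5]
  rfl

theorem GBK_per (s : ℝ) (f : ℍ → ℂ) (θ : ℝ) : ft s f (θ + Real.pi) = ft s f θ := by
  unfold ft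
  have h : ∀ z : ℍ, (kM (θ + Real.pi) • z : ℍ).im = (kM θ • z : ℍ).im := by
    intro z
    rw [GBK_im, GBK_im, Real.cos_add_pi, Real.sin_add_pi]
    ring
  simp only [wv, h]

theorem GBK_cont (hk : Continuous kM) (s : ℝ) (f : ℍ → ℂ) (hf : Continuous f)
    (hc : HasCompactSupport f) : Continuous (ft s f) := by
  have h1 : Continuous (Function.uncurry fun (θ : ℝ) (z : ℍ) => f z * wv s (kM θ) z) := by
    unfold wv Function.uncurry
    refine (hf.comp continuous_snd).mul ?_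
    refine Continuous.cpow ?_ continuous_const ?_
    · exact Complex.continuous_ofReal.comp (UpperHalfPlane.continuous_im.comp
        ((hk.comp continuous_fst).smul continuous_snd))
    · intro p
      left
      simpa using (kM p.1 • p.2 : ℍ).im_pos
  have h2 := continuous_parametric_integral_of_continuous (μ := (volume : Measure ℍ)) h1 hc
  have h3 : ft s f = fun θ => ∫ z in tsupport f, f z * wv s (kM θ) z := by
    funext θ
    unfold ft
    rw [setIntegral_eq_integral_of_forall_compl_eq_zero]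
    intro z hz
    rw [image_eq_zero_of_notMem_tsupport hz, zero_mul]
  rw [h3]
  exact h2

/-- the substitution `t = cot θ` -/
theorem GBK_cot (G : ℝ → ℝ) : ∫ t : ℝ, G t =
    ∫ θ in Ioo 0 Real.pi, (Real.sin θ ^ 2)⁻¹ * G (Real.cos θ / Real.sin θ) := by
  have hd : ∀ θ ∈ Ioo 0 Real.pi, HasDerivWithinAt (fun θ => Real.cos θ / Real.sin θ)
      (-(Real.sin θ ^ 2)⁻¹) (Ioo 0 Real.pi) θ := by
    intro θ hθ
    have hs : Real.sin θ ≠ 0 := (Real.sin_pos_of_mem_Ioo hθ).ne'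
    have h1 := ((Real.hasDerivAt_cos θ).div (Real.hasDerivAt_sin θ) hs).hasDerivWithinAt (s := Ioo 0 Real.pi)
    have e : (-Real.sin θ * Real.sin θ - Real.cos θ * Real.cos θ) / Real.sin θ ^ 2 =
        -(Real.sin θ ^ 2)⁻¹ := by
      have h2 := Real.sin_sq_add_cos_sq θ
      have h3 : -Real.sin θ * Real.sin θ - Real.cos θ * Real.cos θ = -1 := by nlinarith
      rw [h3]
      field_simp
    rw [e] at h1
    exact h1
  have hinj : InjOn (fun θ => Real.cos θ / Real.sin θ) (Ioo 0 Real.pi) := by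
    intro a ha b hb hab
    have hsa : Real.sin a ≠ 0 := (Real.sin_pos_of_mem_Ioo ha).ne'
    have hsb : Real.sin b ≠ 0 := (Real.sin_pos_of_mem_Ioo hb).ne'
    simp only at hab
    rw [div_eq_div_iff hsa hsb] at hab
    have h1 : Real.sin (b - a) = 0 := by
      rw [Real.sin_sub]
      linarith
    have h2 : b - a = 0 := by
      refine (Real.sin_eq_zero_iff_of_lt_of_lt ?_ ?_).1 h1
      · linarith [ha.1, ha.2, hb.1, hb.2]
      · linarith [ha.1, ha.2, hb.1, hb.2]
    linarith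
  have himg : (fun θ => Real.cos θ / Real.sin θ) '' Ioo 0 Real.pi = univ := by
    rw [eq_univ_iff_forall]
    intro t
    refine ⟨Real.pi / 2 - Real.arctan t, ⟨?_, ?_⟩, ?_⟩
    · linarith [Real.arctan_lt_pi_div_two t]
    · linarith [Real.neg_pi_div_two_lt_arctan t]
    · simp only [Real.cos_pi_div_two_sub, Real.sin_pi_div_two_sub]
      rw [← Real.tan_eq_sin_div_cos, Real.tan_arctan]
  have h := integral_image_eq_integral_abs_deriv_smul measurableSet_Ioo hd hinj G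
  rw [himg, Measure.restrict_univ] at h
  rw [h]
  refine setIntegral_congr_fun measurableSet_Ioo fun θ hθ => ?_
  have hs : 0 < Real.sin θ := Real.sin_pos_of_mem_Ioo hθ
  simp only [smul_eq_mul]
  rw [abs_neg, abs_of_pos (by positivity)]

/-- the formula for `ft` -/
theorem GBK_ft (hCV1 : CV1_stmt) (c : ℍ → ℂ) (hc : TB (1 / 4) c) (r s θ : ℝ) (hs : Real.sin θ ≠ 0) :
    ‖ft (-s) (pk r c) θ‖ ^ 2 =
      (Real.sin θ ^ 2)⁻¹ * ‖bI (cc c) r s (Real.cos θ / Real.sin θ)‖ ^ 2 := by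
  have h0 := (hCV1.2.1 c hc).2.2 r s (Real.cos θ / Real.sin θ)
  have hs2 : 0 < (Real.sin θ ^ 2)⁻¹ := by positivity
  have h1 : ∀ z : ℍ, wv (-s) (kM θ) z = (((Real.sin θ ^ 2)⁻¹ : ℝ) : ℂ) ^ ((1 / 2 : ℂ) - (s : ℂ) * Complex.I) *
      ((Pk z (Real.cos θ / Real.sin θ) : ℝ) : ℂ) ^ ((1 / 2 : ℂ) - (s : ℂ) * Complex.I) := by
    intro z
    have e1 : (kM θ • z : ℍ).im = (Real.sin θ ^ 2)⁻¹ * Pk z (Real.cos θ / Real.sin θ) := by
      rw [GBK_im]
      unfold Pk
      have hz := z.im_pos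
      have h2 : (z.re - Real.cos θ / Real.sin θ) ^ 2 + z.im ^ 2 ≠ 0 := by positivity
      have h3 : (Real.cos θ - Real.sin θ * z.re) ^ 2 + (Real.sin θ * z.im) ^ 2 =
          Real.sin θ ^ 2 * ((z.re - Real.cos θ / Real.sin θ) ^ 2 + z.im ^ 2) := by
        field_simp
        ring
      rw [h3]
      field_simp
    have hP : 0 ≤ Pk z (Real.cos θ / Real.sin θ) := by
      unfold Pk
      have hz := z.im_pos
      positivity
    unfold wv
    rw [e1, Complex.ofReal_mul, Complex.mul_cpow_ofReal_nonneg hs2.le hP]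
    have e2 : (1 / 2 : ℂ) + ((-s : ℝ) : ℂ) * Complex.I = (1 / 2 : ℂ) - (s : ℂ) * Complex.I := by
      push_cast
      ring
    rw [e2]
  have h2 : ft (-s) (pk r c) θ = (((Real.sin θ ^ 2)⁻¹ : ℝ) : ℂ) ^ ((1 / 2 : ℂ) - (s : ℂ) * Complex.I) *
      bI (cc c) r s (Real.cos θ / Real.sin θ) := by
    rw [← h0, ← integral_const_mul]
    unfold ft
    refine integral_congr_ae (Eventually.of_forall fun z => ?_)
    simp only
    rw [h1 z]
    ring
  have h3 : ‖(((Real.sin θ ^ 2)⁻¹ : ℝ) : ℂ) ^ ((1 / 2 : ℂ) - (s : ℂ) * Complex.I)‖ ^ 2 = (Real.sin θ ^ 2)⁻¹ := by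
    rw [Complex.norm_cpow_eq_rpow_re_of_pos hs2]
    have e3 : ((1 / 2 : ℂ) - (s : ℂ) * Complex.I).re = 1 / 2 := by simp
    rw [e3, ← Real.rpow_natCast, ← Real.rpow_mul hs2.le]
    norm_num
  rw [h2, norm_mul, mul_pow, h3]

theorem GBK (hGLC : GLC_stmt) (hFL0 : FL0_stmt) (hCV1 : CV1_stmt) : GBK_stmt := by
  intro c hc r s
  have hk : Continuous kM := hGLC.2.2.2.2.2.2.1
  have hT : Tst (pk r c) := hFL0.2.1 (1 / 4) r c hc
  have hcp : Continuous (pk r c) := (QU.CA1_cont (pk r c)).1 (ContDiffOn.of_le hT.1 (by simp))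
  have hcf : Continuous (ft (-s) (pk r c)) := GBK_cont hk (-s) (pk r c) hcp hT.2
  set h : ℝ → ℝ := fun θ => ‖ft (-s) (pk r c) θ‖ ^ 2 with hh
  have hch : Continuous h := hcf.norm.pow 2
  have hper : Function.Periodic h Real.pi := fun θ => by
    simp only [hh, GBK_per]
  have e1 : ∫ θ in (0 : ℝ)..(2 * Real.pi), h θ = 2 * ∫ θ in (0 : ℝ)..Real.pi, h θ := by
    have h1 : ∫ θ in Real.pi..(2 * Real.pi), h θ = ∫ θ in (0 : ℝ)..Real.pi, h θ := by
      have h2 := intervalIntegral.integral_comp_add_right (a := 0) (b := Real.pi) h Real.pi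
      rw [zero_add, ← two_mul] at h2
      rw [← h2]
      refine intervalIntegral.integral_congr fun θ _ => ?_
      exact hper θ
    rw [← intervalIntegral.integral_add_adjacent_intervals (hch.intervalIntegrable 0 Real.pi)
      (hch.intervalIntegrable Real.pi (2 * Real.pi)), h1]
    ring
  have e2 : ∫ θ in (0 : ℝ)..Real.pi, h θ = ∫ t : ℝ, ‖bI (cc c) r s t‖ ^ 2 := by
    rw [intervalIntegral.integral_of_le Real.pi_pos.le, integral_Ioc_eq_integral_Ioo,
      GBK_cot (fun t => ‖bI (cc c) r s t‖ ^ 2)]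
    refine setIntegral_congr_fun measurableSet_Ioo fun θ hθ => ?_
    exact GBK_ft hCV1 c hc r s θ (Real.sin_pos_of_mem_Ioo hθ).ne'
  have e3 : ∫ θ in (0 : ℝ)..(2 * Real.pi), ft (-s) (pk r c) θ * conj (ft (-s) (pk r c) θ) =
      ((∫ θ in (0 : ℝ)..(2 * Real.pi), h θ : ℝ) : ℂ) := by
    rw [← intervalIntegral.integral_ofReal]
    refine intervalIntegral.integral_congr fun θ _ => ?_
    simp only [hh]
    rw [Complex.mul_conj']
    push_cast
    rfl
  unfold gf bk
  rw [e3, e1, e2, ← Complex.ofReal_mul]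
  congr 1
  have hpi := Real.pi_ne_zero
  field_simp

end Pool.Agent.RS
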